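import Pool.Agent.LibBE37Z.Z8

/-! GOE fluctuations of the spectrum in mesoscopic windows beyond the Ehrenfest time, up to any scale
`T ^ o(1)`, for almost every metric of negative curvature. -/

open MeasureTheory Set Filter Topology BGS
open scoped ContDiff unitInterval

namespace Pool.Agent.Results.MP_a825e8_mp.BeyondEhrenfest

theorem result {G : ℝ → ℝ} (h1 : ∀ T, 1 ≤ G T)
    (h2 : ∀ c : ℝ, 0 < c → ∀ᶠ T in atTop, G T ≤ T ^ c)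
    {Γ : Type} [Group Γ] [MulAction Γ Pl] {D : Set Pl} (hX : Surface Γ D)
    (hO : ∀ (γ : Γ) (z : Pl), 0 < (fderiv ℝ (fun w : Pl => γ • w) z).det) (m₀ : Mt Γ D) :
    ∃ φ : (ℕ × (ℤ × ℤ) → I) → Pl → ℝ,
      (∀ ξ, φ ξ ∈ Test Γ) ∧ (∀ z, Measurable fun ξ => φ ξ z) ∧
      (∀ m : Mt Γ D, ∀ U ∈ 𝓝 m, ∃ s₀ : ℝ, 0 < s₀ ∧ ∀ s : ℝ, 0 < s → s ≤ s₀ → ∀ ξ,
        ∃ m' ∈ U, ∃ q : ℝ, 0 < q ∧ ∀ z, m'.1.1 z = (q * Real.exp (s * φ ξ z)) • m.1.1 z) ∧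
      ∀ ψ ∈ Test Γ, ∀ s : ℝ, 0 < s → s ≤ 1 →
        ∀ᵐ ξ ∂(Measure.infinitePi fun _ : ℕ × (ℤ × ℤ) => (volume : Measure I)), ∀ m' : Mt Γ D,
          (∃ q : ℝ, 0 < q ∧ ∀ z, m'.1.1 z = (q * Real.exp (ψ z + s * φ ξ z)) • m₀.1.1 z) →
          ∀ L : ℝ → ℝ, Tendsto L atTop atTop → (∀ᶠ T in atTop, L T ≤ G T) →
            FG33.GOEWindows m' L := by
  obtain ⟨φ, a1, a2, a3, a4⟩ := Z37.every h1 h2 hX hO m₀
  refine ⟨φ, a1, a2, a3, fun ψ hψ s hs hs1 => ?_⟩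
  filter_upwards [a4 ψ hψ s hs hs1] with ξ hξ m' hm'
  exact (hξ m' hm').win

end Pool.Agent.Results.MP_a825e8_mp.BeyondEhrenfest
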