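import Pool.Agent.LibGX66.Final

/-! The fluctuations of the spectrum of a metric of negative curvature in mesoscopic windows: at
least those of the GOE for every metric, with equality for the generic one, which has the Gaussian
law of the GOE in all windows up to a bound which at arbitrarily large frequencies `T` exceeds every
prescribed function `L0 T = T ^ o(1)`. -/

open MeasureTheory Set Filter Topology BGS EM73
open scoped ContDiff ENNReal

namespace Pool.Agent.Results.MP_a825e8_mp.GenericWindows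

theorem result {Γ : Type} [Group Γ] [MulAction Γ Pl] {D : Set Pl} (hX : Surface Γ D)
    (hO : ∀ (γ : Γ) (z : Pl), 0 < (fderiv ℝ (fun w : Pl => γ • w) z).det) :
    (∀ (m : Mt Γ D) (L : ℝ → ℝ), Tendsto L atTop atTop →
      Tendsto (fun T => L T / Real.log T) atTop (𝓝 0) →
      (∀ (f : ℝ → ℝ) (k : ℕ), FE35.IsTest f → (k = 1 ∨ PosFour f) →
        normMom (FE35.vGOE f) k ≤ lowMom m f L k) ∧
      ∀ ε : ℝ, 0 < ε → ∀ᶠ T in atTop,
        (2 / Real.pi ^ 2 - ε) * Real.log (Real.log T / L T) ≤ numVar m T (1 / L T)) ∧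
    ∀ L0 : ℝ → ℝ, (∀ c : ℝ, 0 < c → ∀ᶠ T in atTop, L0 T ≤ T ^ c) →
      ∀ᶠ m in residual (Mt Γ D),
        (∀ L : ℝ → ℝ, Tendsto L atTop atTop → Tendsto (fun T => L T / Real.log T) atTop (𝓝 0) →
          ∀ (a : ℝ → ℂ) (k : ℕ), FG33.IsAmp a → (k = 1 ∨ PosFour (FG33.tf a)) →
            lowMom m (FG33.tf a) L k = normMom (FE35.vGOE (FG33.tf a)) k) ∧
        ∃ Lam : ℝ → ℝ, Tendsto Lam atTop atTop ∧ (∃ᶠ T in atTop, L0 T ≤ Lam T) ∧
          ∀ L : ℝ → ℝ, Tendsto L atTop atTop → (∀ᶠ T in atTop, L T ≤ Lam T) →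
            GOEMeans m L ∧ FG33.GOEWindows m L :=
  ⟨fun m L hL hL' => GW66.every hX hO m L hL hL', fun _ hL0 => GX66.generic GX66.inp hX hO hL0⟩

end Pool.Agent.Results.MP_a825e8_mp.GenericWindows
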