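import Mathlib
import Pool.Agent.LibMx40.M10
import Pool.Agent.LibMx40.M13
import Pool.Agent.LibQGr.R_FIN
import Pool.Agent.LibQGr.R_GEN
import Pool.Agent.LibCOE.CP_S14

open MeasureTheory Set Filter Topology

/-! GOE statistics for mixing quantum graphs: the levels of a layered quantum graph with `N` channels
and any real orthogonal vertex matrices have GOE statistics, up to any `ε > 0`, if the number of
layers is at least `C w log N`, where `w` is the time in which two independent classical walkers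
meet. For the brick wall, a planar graph whose inner vertices have degree four, `w = N (N + 4)`. -/

namespace Pool.Agent.Results.MP_a825e8_mp.MixingGraphs

open QGr Mx

/-- The edge lengths are linearly independent over the rational numbers. -/
def Indep {N m : ℕ} (l : Fin (m + 1) → Fin N → ℝ) : Prop :=
  LinearIndependent ℚ fun q : Fin (m + 1) × Fin N => l q.1 q.2

/-- The sine kernel `s(r) = sin (πr) / (πr)`. -/
noncomputable def sineK (r : ℝ) : ℝ := Real.sinc (Real.pi * r)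

/-- The kernel `J(r) = sign r / 2 - ∫_0^r s`. -/
noncomputable def signK (r : ℝ) : ℝ := Real.sign r / 2 - ∫ t in (0 : ℝ)..r, sineK t

/-- The matrix of the `2 × 2` blocks `[-s', s; -s, -J]` at the differences `x a - x b`. -/
noncomputable def goeM {q : ℕ} (x : Fin q → ℝ) : Matrix (Fin q × Fin 2) (Fin q × Fin 2) ℝ :=
  fun a b => !![-deriv sineK (x a.1 - x b.1), sineK (x a.1 - x b.1);
    -sineK (x a.1 - x b.1), -signK (x a.1 - x b.1)] a.2 b.2

/-- The `q`-point correlation function of the GOE in the bulk at unit mean spacing: the quaternion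
determinant (Pfaffian) of the kernel, which is the square root of the determinant. -/
noncomputable def goeR {q : ℕ} (x : Fin q → ℝ) : ℝ := √(goeM x).det

/-- The terms of the series of the probability that a gap of the GOE is longer than `s`:
`(-1)^k / k! ∫_{(0, s]^k} R_{k+1}(0, v) dv`. -/
noncomputable def gapT (s : ℝ) (k : ℕ) : ℝ :=
  (-1) ^ k / k.factorial *
    ∫ v in univ.pi fun _ : Fin k => Ioc 0 s, goeR (Fin.cons 0 v : Fin (k + 1) → ℝ)

/-- `μ` is the nearest-neighbour spacing distribution of the GOE (Gaudin, Mehta). -/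
def IsGaudin (μ : Measure ℝ) : Prop :=
  IsProbabilityMeasure μ ∧ ∀ s, 0 ≤ s → HasSum (gapT s) (μ.real (Ioi s))

theorem gaudin_val {μ : Measure ℝ} (hμ : IsGaudin μ) {s : ℝ} (hs : 0 ≤ s) :
    μ.real (Ioi s) = COE.gE s := (hμ.2 s hs).unique (COE.gE_sum s hs)

theorem gaudin_unique : ∃! μ, IsGaudin μ := by
  obtain ⟨μ, h1, h2⟩ := COE.goe_law
  have hμ : IsGaudin μ := by
    refine ⟨h1, fun s hs => ?_⟩
    rw [h2 s hs]
    exact COE.gE_sum s hs
  refine ⟨μ, hμ, fun ν hν => ?_⟩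
  have hp := hν.1
  have hm := hμ.1
  have one : ∀ {μ : Measure ℝ}, IsGaudin μ → μ (Ioi 0) = 1 := by
    intro μ hμ
    have := hμ.1
    have h3 := gaudin_val hμ le_rfl
    rw [COE.gE_mono.1] at h3
    have h4 : μ (Ioi 0) ≠ ⊤ := measure_ne_top _ _
    rw [← ENNReal.ofReal_toReal h4]
    rw [Measure.real] at h3
    rw [h3, ENNReal.ofReal_one]
  have h5 : ∀ s, ν (Ioi s) = μ (Ioi s) := by
    intro s
    rcases le_or_gt 0 s with hs | hs
    · have h6 : ν.real (Ioi s) = μ.real (Ioi s) := by rw [gaudin_val hν hs, gaudin_val hμ hs]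
      rw [Measure.real, Measure.real] at h6
      exact (ENNReal.toReal_eq_toReal_iff' (measure_ne_top _ _) (measure_ne_top _ _)).1 h6
    · have h7 : ∀ {μ : Measure ℝ}, IsGaudin μ → μ (Ioi s) = 1 := by
        intro μ hμ
        have := hμ.1
        refine le_antisymm prob_le_one ?_
        rw [← one hμ]
        exact measure_mono (Ioi_subset_Ioi hs.le)
      rw [h7 hν, h7 hμ]
  refine Measure.ext_of_Iic ν μ fun s => ?_
  rw [← compl_Ioi, prob_compl_eq_one_sub measurableSet_Ioi, prob_compl_eq_one_sub measurableSet_Ioi,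
    h5 s]

theorem result (a b : ℝ) (ha : 0 < a) (hab : a ≤ b) :
    (∀ N m : ℕ, (∀ᶠ l : Fin (m + 1) → Fin N → ℝ in residual _, Indep l) ∧
      ∀ᵐ l : Fin (m + 1) → Fin N → ℝ, Indep l) ∧
    (∀ N : ℕ, 0 < N → ∀ (O : ℕ → Orth N) (m : ℕ) (l : Fin (m + 1) → Fin N → ℝ),
      (∀ j i, l j i ∈ Icc a b) → ∃! κ, IsLevels N m O l κ) ∧
    (∀ (p : ℕ) (f : (Fin (p + 1) → ℝ) → ℝ) (L : NNReal), LipschitzWith L f → HasCompactSupport f →
      ∀ ε : ℝ, 0 < ε → ∃ (C : ℝ) (N₀ : ℕ), ∀ N : ℕ, N₀ ≤ N → Even N →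
        ∀ (O : ℕ → Orth N) (w m : ℕ), Meets m w O → C * w * Real.log N ≤ m →
        ∀ l : Fin (m + 1) → Fin N → ℝ, (∀ j i, l j i ∈ Icc a b) → Indep l →
        ∀ κ, IsLevels N m O l κ → ∀ᶠ T : ℝ in atTop,
          |corr p f (unf l κ) T - ∫ v, f v * goeR (Fin.cons 0 v : Fin (p + 2) → ℝ)| ≤ ε) ∧
    (∃! μ, IsGaudin μ) ∧
    (∀ μ, IsGaudin μ → ∀ (f : ℝ → ℝ) (L : NNReal) (K : ℝ), LipschitzWith L f → (∀ x, |f x| ≤ K) →
      ∀ ε : ℝ, 0 < ε → ∃ (C : ℝ) (N₀ : ℕ), ∀ N : ℕ, N₀ ≤ N → Even N →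
        ∀ (O : ℕ → Orth N) (w m : ℕ), Meets m w O → C * w * Real.log N ≤ m →
        ∀ l : Fin (m + 1) → Fin N → ℝ, (∀ j i, l j i ∈ Icc a b) → Indep l →
        ∀ κ, IsLevels N m O l κ → ∀ᶠ T : ℝ in atTop, |spac f (unf l κ) T - ∫ x, f x ∂μ| ≤ ε) ∧
    (∀ (N m : ℕ) (O : ℕ → Orth N) (γ : ℝ), 0 < γ →
      (∀ j, j < m → ∀ x y, γ ≤ ∑ z, (O j).1 z x ^ 2 * (O j).1 z y ^ 2) → Meets m ⌈1 / γ⌉₊ O) ∧
    ∀ N : ℕ, Even N → ∃ O : ℕ → Orth N, (∀ j, (O j).1 = brick N j) ∧
      ∀ m, Meets m (N * (N + 4)) O := by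
  refine ⟨fun N m => ⟨gen_res N m, gen_ae N m⟩, fun N hN O m l hl =>
    main_levels hN O m l a b ha hab hl, ?_, gaudin_unique, ?_,
    fun N m O γ h0 h => flat_meets O m γ h0 h,
    fun N hN => ⟨fun j => ⟨brick N j, brick_orth N j⟩, fun j => rfl,
      fun m => brick_meets hN _ (fun j => rfl) m⟩⟩
  · intro p f L hL hs ε hε
    obtain ⟨B, hB⟩ := hs.isBounded.exists_norm_le
    have hB' : ∀ v, (∃ i, B < |v i|) → f v = 0 := by
      intro v hv
      obtain ⟨i, hi⟩ := hv
      by_contra h0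
      have h1 := hB v (subset_tsupport f h0)
      have h2 := norm_le_pi_norm v i
      rw [Real.norm_eq_abs] at h2
      linarith
    exact Mx.mix_corr a b ha hab p f L B L.2 (fun u v => by
        have := hL.dist_le_mul u v
        rwa [Real.dist_eq] at this) hB' ε hε
  · intro μ hμ f L K hL hK ε hε
    exact Mx.mix_spac a b ha hab μ hμ.1 (fun s hs => gaudin_val hμ hs) f L K L.2 (fun u v => by
        have := hL.dist_le_mul u v
        rwa [Real.dist_eq] at this) hK ε hε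

end Pool.Agent.Results.MP_a825e8_mp.MixingGraphs
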