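import Pool.Agent.LibBE37Z.Z8
import Pool.Agent.LibOM21.B2

/-! The remainder in Weyl's law. For the generic metric of negative curvature it oscillates, with both
signs, more than every given function `G (y) = y ^ o(1)`. For almost every metric: from above almost up to
a power saving, from below almost up to the order predicted by the random matrix conjecture. -/

open MeasureTheory Set Filter Topology BGS
open scoped ContDiff unitInterval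

namespace Pool.Agent.Results.MP_a825e8_mp.WeylRemainder

/-- The number of the eigenvalues `λ_k` of the square root of minus the Laplacian in the set `S`,
with multiplicity. -/
noncomputable def cnt {Γ : Type} [Group Γ] [MulAction Γ Pl] {D : Set Pl} (m : Mt Γ D)
    (S : Set ℝ) : ℝ := ({k : ℕ | FG33.lam m k ∈ S} : Set ℕ).ncard

/-- The remainder in Weyl's law. -/
noncomputable def rem {Γ : Type} [Group Γ] [MulAction Γ Pl] {D : Set Pl} (m : Mt Γ D)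
    (y : ℝ) : ℝ := cnt m (Iic y) - y ^ 2 / (4 * Real.pi)

theorem result {G : ℝ → ℝ} (h1 : ∀ T, 1 ≤ G T)
    (h2 : ∀ c : ℝ, 0 < c → ∀ᶠ T in atTop, G T ≤ T ^ c)
    {Γ : Type} [Group Γ] [MulAction Γ Pl] {D : Set Pl} (hX : Surface Γ D)
    (hO : ∀ (γ : Γ) (z : Pl), 0 < (fderiv ℝ (fun w : Pl => γ • w) z).det) :
    (∀ᶠ m in residual (Mt Γ D), ∀ n : ℕ, (∃ y : ℝ, n < y ∧ n * G y < rem m y) ∧
      ∃ y : ℝ, n < y ∧ rem m y < -(n * G y)) ∧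
    ∀ m₀ : Mt Γ D, ∃ φ : (ℕ × (ℤ × ℤ) → I) → Pl → ℝ,
      (∀ ξ, φ ξ ∈ Test Γ) ∧ (∀ z, Measurable fun ξ => φ ξ z) ∧
      (∀ m : Mt Γ D, ∀ U ∈ 𝓝 m, ∃ s₀ : ℝ, 0 < s₀ ∧ ∀ s : ℝ, 0 < s → s ≤ s₀ → ∀ ξ,
        ∃ m' ∈ U, ∃ q : ℝ, 0 < q ∧ ∀ z, m'.1.1 z = (q * Real.exp (s * φ ξ z)) • m.1.1 z) ∧
      ∀ ψ ∈ Test Γ, ∀ s : ℝ, 0 < s → s ≤ 1 →
        ∀ᵐ ξ ∂(Measure.infinitePi fun _ : ℕ × (ℤ × ℤ) => (volume : Measure I)), ∀ m' : Mt Γ D,
          (∃ q : ℝ, 0 < q ∧ ∀ z, m'.1.1 z = (q * Real.exp (ψ z + s * φ ξ z)) • m₀.1.1 z) →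
          Tendsto (fun y : ℝ => rem m' y * G y / y) atTop (𝓝 0) ∧
          (∀ h : ℝ → ℝ, (∀ᶠ y in atTop, 0 < h y ∧ h y ≤ 1 ∧ 1 ≤ G y * h y) →
            Tendsto (fun y : ℝ => cnt m' (Ioc y (y + h y)) / (y * h y)) atTop
              (𝓝 (1 / (2 * Real.pi)))) ∧
          (∀ᶠ T : ℝ in atTop, Real.log (G T) ≤ 1 / T * ∫ y in (0 : ℝ)..T, rem m' y ^ 2) ∧
          (∃ᶠ y : ℝ in atTop, √(Real.log (G y)) ≤ |rem m' y|) ∧
          ∃ L₁ : ℝ, ∀ᶠ T : ℝ in atTop, ∀ L : ℝ, L₁ ≤ L → L ≤ G T →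
            Real.log (G T) ≤ EM73.numVar m' T (1 / L) := by
  refine ⟨OM21.generic hX hO h2, fun m₀ => ?_⟩
  obtain ⟨φ, a1, a2, a3, a4⟩ := Z37.every h1 h2 hX hO m₀
  refine ⟨φ, a1, a2, a3, fun ψ hψ s hs hs1 => ?_⟩
  filter_upwards [a4 ψ hψ s hs hs1] with ξ hξ m' hm'
  obtain ⟨-, b2, b3, b4, b5, b6⟩ := hξ m' hm'
  refine ⟨b2, fun h hh => ?_, b5, b6, b4⟩
  refine (b3 h hh).congr' ?_
  filter_upwards [hh] with y hy
  rw [← Z37.Nc_sub (BE33.Fin_fin hX m') hy.1.le]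
  rfl

end Pool.Agent.Results.MP_a825e8_mp.WeylRemainder
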